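import Pool.Agent.R447.GrowthMain

/-!
# MP_6528c2_nt: growth of `f_{p,q}` under dilation

`f_{p,q}(n)` is the number of representations of `n` as a sum of distinct elements of
`{p ^ α * q ^ β}`. We prove `f_{p,q}(l n) ≤ C n ^ (log 2 log l / (log p log q) + ε) f_{p,q}(n)` for
all sufficiently large `n`.

Method. Let `M(x)` be the number of finite subsets of `{p ^ α * q ^ β}` with sum at most `x`.
Splitting off the powers of `q` gives `M(x) ≤ M(x / p) 2 ^ (log_q x + 1)`, adding powers of `p` below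
`p ^ k` gives `M(y) 2 ^ k ≤ M(q y + p ^ k)`. With `p ^ a / q ^ b` slightly larger than `λ` this
yields `M(λ x) ≤ C x ^ (log 2 log λ / (log p log q) + ε) M(x)`. A dissociated subset of size about
`log_2 n` gives `f(m) n ^ (1 - ε) ≤ C M(m + δ n)`, and a complete subset with about `log_2 n`
elements below `n` (a sparse form of Birch's theorem) gives `M(n - u) ≤ C n ^ (1 + ε) f(n)`.
-/

set_option autoImplicit false

namespace Pool.Agent.Results.MP_6528c2_nt.DilationGrowth

/-- `f_{p,q}(n)`: the number of finite subsets of `{p ^ α * q ^ β}` with sum `n`. -/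
noncomputable def f (p q n : ℕ) : ℕ :=
  Set.ncard {T : Finset ℕ | (∀ t ∈ T, ∃ α β : ℕ, t = p ^ α * q ^ β) ∧ ∑ t ∈ T, t = n}

theorem f_eq (p q n : ℕ) : f p q n = (Pool.Agent.R447.Growth.Fn p q n).card := by
  rw [f, ← Set.ncard_coe_finset]
  congr 1
  ext T
  rw [Finset.mem_coe, Pool.Agent.R447.Growth.mem_Fn]
  rfl

/-- **Growth of `f_{p,q}` under dilation.** -/
theorem result : ∀ p q : ℕ, 1 < p → p < q → Nat.Coprime p q → ∀ l : ℕ, 2 ≤ l →
    ∀ ε : ℝ, 0 < ε → ∃ (C : ℝ) (n₀ : ℕ), ∀ n : ℕ, n₀ ≤ n →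
      (f p q (l * n) : ℝ) ≤
        C * (n : ℝ) ^ (Real.log 2 * Real.log l / (Real.log p * Real.log q) + ε) * f p q n := by
  intro p q hp hq hpq l hl ε hε
  obtain ⟨C, n₀, h⟩ := Pool.Agent.R447.Growth.main (p := p) (q := q) hp (by omega) hpq hl hε
  refine ⟨C, n₀, fun n hn => ?_⟩
  rw [f_eq, f_eq]
  exact h n hn

end Pool.Agent.Results.MP_6528c2_nt.DilationGrowth
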